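import Pool.Agent.Lib.H38U.Rec
import Pool.Agent.Lib.H38S.Main

/-! # H38U, file Count: numbers of words, the recursion and its end (MP_73a90e_al) -/

set_option autoImplicit false

namespace H38U

open H38S H87M H87L Pool.H87G

/-- `c` words of `N - 1` bits suffice to generate a word of `L` bits on the level `N`. -/
def P (N L c : ℕ) : Prop :=
  1 ≤ c ∧ ∃ (I : Type) (_ : Fintype I), Fintype.card I ≤ c ∧ Ge N (Fin L → Bool) I (Fin (N - 1) → Bool)

/-- `c` relations suffice to join `m` words of `L` bits on the level `m + 1`. -/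
def Cr (m L c : ℕ) : Prop :=
  ∃ (I : Type) (_ : Fintype I), Fintype.card I ≤ c ∧ CrM m (Fin L → Bool) (fun _ => Set.univ) I

/-- the number of joins of long words -/
def W (b q : ℕ) : ℕ := Fintype.card ((Fin (b * q) → Bool) → Fin (b + 1) → Fin (b * q) → Bool)

theorem P_mono {N L L' c : ℕ} (h : P N L c) (hL : L' ≤ L) : P N L' c := by
  obtain ⟨hc, I, hI, hIc, h⟩ := h
  obtain ⟨e, he⟩ := H38S.inj_of_le (X := Fin L → Bool) (Y := Fin L' → Bool) (by
    simp only [Fintype.card_fun, Fintype.card_fin, Fintype.card_bool]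
    exact Nat.pow_le_pow_right (by norm_num) hL)
  exact ⟨hc, I, hI, hIc, ge_emb h e he⟩

theorem P_le {N L c c' : ℕ} (h : P N L c) (hc : c ≤ c') : P N L c' := by
  obtain ⟨h1, I, hI, hIc, h⟩ := h
  exact ⟨h1.trans hc, I, hI, hIc.trans hc, h⟩

theorem Cr_mono {m L L' c : ℕ} (h : Cr m L c) (hL : L' ≤ L) : Cr m L' c := by
  obtain ⟨I, hI, hIc, h⟩ := h
  obtain ⟨e, he⟩ := H38S.inj_of_le (X := Fin L → Bool) (Y := Fin L' → Bool) (by
    simp only [Fintype.card_fun, Fintype.card_fin, Fintype.card_bool]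
    exact Nat.pow_le_pow_right (by norm_num) hL)
  exact ⟨I, hI, hIc, crM_emb h e he⟩

/-- a word of `b` bits, level `b + 2` -/
theorem P_small (b : ℕ) : P (b + 2) b 1 := by
  obtain ⟨e, he⟩ := H38S.inj_of_le (X := Fin (b + 2 - 1) → Bool) (Y := Fin b → Bool) (by
    simp only [Fintype.card_fun, Fintype.card_fin, Fintype.card_bool]
    exact Nat.pow_le_pow_right (by norm_num) (by omega))
  exact ⟨le_rfl, Unit, inferInstance, by simp, fun _ => e, fun Ω K hK x h => of_inj hK he (h ())⟩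

/-- The recursion, with numbers. -/
theorem rec_step {b q l a c1 c2 : ℕ} (h' : P (b + 1) (b * q) a) (h : P (b + 2) (b * l) c1)
    (hC : Cr (b + 1) (b * q * l) c2) : P (b + 2) (b * q * l) (a * c1 + W b q * c2) := by
  obtain ⟨ha, I0, hI0, hIa, h1⟩ := h'
  obtain ⟨hc1, J, hJ, hJc, h2⟩ := h
  obtain ⟨IC, hIC, hICc, h3⟩ := hC
  obtain ⟨e1, he1⟩ := H38S.inj_of_le (X := Fin (b * l) → Bool) (Y := Fin l → Fin b → Bool) (by
    simp only [Fintype.card_fun, Fintype.card_fin, Fintype.card_bool]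
    rw [pow_mul])
  obtain ⟨e2, he2⟩ := H38S.inj_of_le (X := Fin (b * q * l) → Bool) (Y := Fin l → Fin (b * q) → Bool) (by
    simp only [Fintype.card_fun, Fintype.card_fin, Fintype.card_bool]
    rw [pow_mul 2 (b * q) l])
  obtain ⟨e3, he3⟩ := H38S.inj_of_le (X := Fin l → Fin (b * q) → Bool) (Y := Fin (b * q * l) → Bool) (by
    simp only [Fintype.card_fun, Fintype.card_fin, Fintype.card_bool]
    rw [pow_mul 2 (b * q) l])
  have h4 : Ge (b + 1 + 1) (Fin l → Fin b → Bool) J (Fin (b + 1) → Bool) := ge_emb h2 e1 he1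
  have h5 := ge_mul (code := id) Function.injective_id h1 h4 (crM_emb h3 e2 he2)
  refine ⟨?_, (I0 × J) ⊕ (((Fin (b * q) → Bool) → Fin (b + 1) → Fin (b * q) → Bool) × IC), inferInstance, ?_,
    ge_emb h5 e3 he3⟩
  · have := Nat.mul_le_mul ha hc1
    omega
  · rw [Fintype.card_sum, Fintype.card_prod, Fintype.card_prod]
    exact Nat.add_le_add (Nat.mul_le_mul hIa hJc) (Nat.mul_le_mul_left _ hICc)

theorem third : ∀ s l : Fin 3, ¬ s = l → s = l + 1 ∨ s = l + 2 := by decide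

/-- Level 3: three bits are known together if any two of them are. -/
theorem ge_three {X I : Type} (h : Ge 3 X I (Fin 3 → Bool)) : Ge 3 X (I × Fin 3) (Fin 2 → Bool) := by
  obtain ⟨g, hg⟩ := h
  refine ⟨fun p x => ![g p.1 x (p.2 + 1), g p.1 x (p.2 + 2)], fun Ω K hK x hx => hg Ω K hK x fun i => ?_⟩
  refine hK.rule Bool false _ fun l => ?_
  refine of_fac hK (hx (i, l)) fun z z' hz => ?_
  have e0 : g i (x z) (l + 1) = g i (x z') (l + 1) := congrFun hz 0
  have e1 : g i (x z) (l + 2) = g i (x z') (l + 2) := congrFun hz 1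
  funext s
  by_cases hs : s = l
  · rw [if_pos hs, if_pos hs]
  · rw [if_neg hs, if_neg hs]
    have h3 : s = l + 1 ∨ s = l + 2 := third s l hs
    rcases h3 with rfl | rfl
    · exact e0
    · exact e1

/-- the level 3 -/
theorem P_three (i : ℕ) : P 3 (2 ^ i) (3 * (2 ^ i * 2 ^ (10 * Nat.sqrt i + 7))) := by
  obtain ⟨I, hI, hIc, h⟩ := geN_TW i
  obtain ⟨e, he⟩ := H38S.inj_of_le (X := Fin 3 → Bool) (Y := Fin 6) (by simp)
  obtain ⟨e1, he1⟩ := H38S.inj_of_le (X := Fin (2 ^ 2 ^ i)) (Y := Fin (2 ^ i) → Bool) (by simp)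
  have h1 := TW_le i
  refine ⟨?_, I × Fin 3, inferInstance, ?_, ge_three (ge_alph (ge_emb h e1 he1) e he)⟩
  · exact Nat.succ_le_of_lt (by positivity)
  · rw [Fintype.card_prod, Fintype.card_fin, mul_comm]
    exact Nat.mul_le_mul_left _ (hIc.trans h1)

/-- The end: a bound for `d`. -/
theorem d_le_P {F : Set (POp Bool)} {N L c n : ℕ} (hN : 1 ≤ N) (hF : Generates F (Lev N)) (hn : n ≤ 2 ^ L)
    (h : P N L c) : d F n ≤ (2 ^ 2 ^ (N - 1) + 2) * c := by
  obtain ⟨hc, I, hI, hIc, h⟩ := h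
  obtain ⟨e, he⟩ := H38S.inj_of_le (X := Fin L → Bool) (Y := Fin n) (by simpa using hn)
  obtain ⟨e1, he1⟩ := H38S.inj_of_le (X := Fin (2 ^ (N - 1))) (Y := Fin (N - 1) → Bool) (by simp)
  have h1 : GeN N n c (2 ^ (N - 1)) := ⟨I, hI, hIc, ge_alph (ge_emb h e he) e1 he1⟩
  calc d F n ≤ c * 2 ^ 2 ^ (N - 1) + 2 := d_le' hN hF h1
    _ ≤ c * 2 ^ 2 ^ (N - 1) + 2 * c := by omega
    _ = (2 ^ 2 ^ (N - 1) + 2) * c := by ring

end H38U
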