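import Pool.Agent.Lib.H38U.Count
import Pool.Agent.Lib.H65Q.Inst
import Pool.Agent.Lib.H99M.Iter

/-! # H38U, file Fin: the exponent `(N - 1) / 2` on the level `N` (MP_73a90e_al) -/

set_option autoImplicit false

namespace H38U

open H38S H87M H87L Pool.H87G H65Q

theorem gr_P_three : Gr 1 (P 3) := by
  obtain ⟨K, hK0, hK⟩ := gr_three (P := fun L m => P 3 L (3 * m)) (fun L L' m hL h => P_mono h hL)
    (fun i => ⟨_, le_rfl, P_three i⟩)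
  refine ⟨3 * K, by positivity, fun L hL => ?_⟩
  obtain ⟨m, hm, h⟩ := hK L hL
  refine ⟨3 * m, ?_, h⟩
  have h1 : (2 : ℝ) ^ (K * √(Real.logb 2 L)) ≤ 2 ^ (3 * K * √(Real.logb 2 L)) := by
    refine Real.rpow_le_rpow_of_exponent_le (by norm_num) ?_
    have h2 : 0 ≤ K * √(Real.logb 2 L) := mul_nonneg hK0 (Real.sqrt_nonneg _)
    linarith
  push_cast
  calc 3 * (m : ℝ) ≤ 3 * (K * (L : ℝ) ^ (1 : ℝ) * 2 ^ (K * √(Real.logb 2 L))) :=
        mul_le_mul_of_nonneg_left hm (by norm_num)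
    _ ≤ 3 * (K * (L : ℝ) ^ (1 : ℝ) * 2 ^ (3 * K * √(Real.logb 2 L))) :=
        mul_le_mul_of_nonneg_left (mul_le_mul_of_nonneg_left h1 (by positivity)) (by norm_num)
    _ = 3 * K * (L : ℝ) ^ (1 : ℝ) * 2 ^ (3 * K * √(Real.logb 2 L)) := by ring

theorem gr_Cr {m : ℕ} (hm : 2 ≤ m) : Gr ((m : ℝ) / 2) (Cr m) := by
  refine gr_join (P := Cr m) (fun L L' c hL h => Cr_mono h hL) m fun i => ?_
  obtain ⟨I, hI, hc, h⟩ := H99M.crM_cc hm i (Fin (4 ^ i)) (by simp)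
  exact ⟨_, le_rfl, I, hI, hc.le, h⟩

theorem gr_P (b : ℕ) : Gr (((b : ℝ) + 2) / 2) (P (b + 3)) := by
  induction b with
  | zero =>
    have h := gr_P_three
    have e : (((0 : ℕ) : ℝ) + 2) / 2 = 1 := by norm_num
    rw [e]
    exact h
  | succ b ih =>
    have hC : Gr (((b + 3 : ℕ) : ℝ) / 2) (Cr (b + 3)) := gr_Cr (by omega)
    have e : (((b + 3 : ℕ) : ℝ)) / 2 = (((b + 1 : ℕ) : ℝ) + 2) / 2 := by
      push_cast
      ring
    rw [e] at hC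
    refine step (β := b + 2) (W := W (b + 2)) (e' := ((b : ℝ) + 2) / 2) (by omega) (by positivity) ?_ ih hC
      (fun L L' m hL h => P_mono h hL) ⟨1, P_small (b + 2)⟩ ?_
    · push_cast
      linarith
    · intro q l a m c _ _ h1 h2 h3
      exact rec_step (b := b + 2) h1 h2 h3

/-- The bound on the level `N`. -/
theorem main {N : ℕ} (hN : 3 ≤ N) :
    ∃ K : ℝ, 0 < K ∧ ∀ F : Set (POp Bool), Generates F (Lev N) → ∀ n : ℕ, 2 ≤ n →
      (d F n : ℝ) ≤ K * Real.logb 2 n ^ (((N : ℝ) - 1) / 2) * 2 ^ (K * √(Real.logb 2 (Real.logb 2 n))) := by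
  obtain ⟨b, rfl⟩ : ∃ b, N = b + 3 := ⟨N - 3, by omega⟩
  obtain ⟨B, hB⟩ : ∃ B : ℕ, B = 2 ^ 2 ^ (b + 3 - 1) + 2 := ⟨_, rfl⟩
  have h0 := gr_P b
  obtain ⟨K, hK, h⟩ := final (dn := fun n => sInf {c | ∃ L m, n ≤ 2 ^ L ∧ P (b + 3) L m ∧ c = B * m}) h0
    (by positivity) (fun n L m hn hP => Nat.sInf_le ⟨L, m, hn, hP, rfl⟩)
  refine ⟨K, hK, fun F hF n hn => ?_⟩
  have hne : {c | ∃ L m, n ≤ 2 ^ L ∧ P (b + 3) L m ∧ c = B * m}.Nonempty := by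
    obtain ⟨K', _, hK'⟩ := h0
    obtain ⟨m, _, hm⟩ := hK' n (by omega)
    exact ⟨_, n, m, n.lt_two_pow_self.le, hm, rfl⟩
  have h1 : d F n ≤ sInf {c | ∃ L m, n ≤ 2 ^ L ∧ P (b + 3) L m ∧ c = B * m} := by
    obtain ⟨L, m, hL, hP, hc⟩ := Nat.sInf_mem hne
    rw [hc, hB]
    exact d_le_P (by omega) hF hL hP
  have h2 := h n hn
  have e : (((b + 3 : ℕ) : ℝ) - 1) / 2 = ((b : ℝ) + 2) / 2 := by
    push_cast
    ring
  rw [e]
  exact le_trans (by exact_mod_cast h1) h2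

end H38U
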