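import Pool.Agent.Lib.H38S.Gen
import Pool.Agent.Lib.H87M.Step

/-! # H38U, file Rec: the recursion from level `m` to level `m + 1` (MP_73a90e_al)

Let `x` be a word of letters `x_h` in a set `A`, in a system `K` of level `m + 1`. For a function `v` on `A` let `K' (v)` say
that the long word of the letters `v (x_h)` is known. If enough joins of `m` long words have been bought then `K'` is a
system of level `m` on `A`. So words which generate on the level `m` give words which generate on the level `m + 1`. -/

set_option autoImplicit false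

namespace H38U

open H38S H87M

theorem crM_emb {m : ℕ} {X Y I : Type} (h : CrM m X (fun _ => Set.univ) I) (e : Y → X) (he : Function.Injective e) :
    CrM m Y (fun _ => Set.univ) I := by
  obtain ⟨u, hu⟩ := h
  refine ⟨fun t s y => u t s (e y), fun Ω K hK c x _ hx hrel => ?_⟩
  have h1 := hu Ω K hK (e c) (fun z s => e (x z s)) (fun _ _ => Set.mem_univ _) (fun l => by
    have h2 := hK.comp _ _ _ (fun (w : Fin m → Y) s => e (w s)) (hx l)
    have h3 : (fun z s => e (if s = l then c else x z s)) = fun z s => if s = l then e c else e (x z s) := by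
      funext z s
      split_ifs <;> rfl
    rw [h3] at h2
    exact h2) hrel
  refine of_inj hK (e := fun (w : Fin m → Y) s => e (w s)) (fun w w' hw => ?_) h1
  funext s
  exact he (congrFun hw s)

/-- The recursion. -/
theorem ge_mul {m : ℕ} {A L Z' Z I0 J IC : Type} [Nonempty A] {code : (Fin m → Bool) → Z}
    (hcode : Function.Injective code) (h1 : Ge m A I0 Z') (h2 : Ge (m + 1) (L → Z') J Z)
    (h3 : CrM m (L → A) (fun _ => Set.univ) IC) :
    Ge (m + 1) (L → A) ((I0 × J) ⊕ ((A → Fin m → A) × IC)) Z := by
  classical
  obtain ⟨g0, hg0⟩ := h1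
  obtain ⟨gJ, hgJ⟩ := h2
  obtain ⟨u, hu⟩ := h3
  refine ⟨fun s => s.elim (fun p x => gJ p.2 fun h => g0 p.1 (x h))
    (fun p x => code fun s => u p.2 s fun h => p.1 (x h) s), fun Ω K hK x hx => ?_⟩
  have k1 : ∀ i, K (L → Z') fun z h => g0 i (x z h) := fun i =>
    hgJ Ω K hK _ fun j => hx (Sum.inl (i, j))
  have k2 : ∀ (w : A → Fin m → A) (t : IC), K (Fin m → Bool) fun z s => u t s fun h => w (x z h) s := fun w t =>
    of_inj hK hcode (hx (Sum.inr (w, t)))
  obtain ⟨K', hK'⟩ : ∃ K' : Pred A, K' = fun X v => K (L → X) fun z h => v (x z h) := ⟨_, rfl⟩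
  have hS : Sys m A K' := by
    rw [hK']
    refine ⟨?_, ?_, ?_⟩
    · intro X v hv
      exact hK.const _ _ fun z z' => funext fun h => hv _ _
    · intro X Y v e h
      exact hK.comp _ _ _ (fun (w : L → X) h => e (w h)) h
    · intro Y _ c w h
      obtain ⟨a0⟩ := ‹Nonempty A›
      have hr : ∀ (s : Fin m) (y : Y), ∃ a : A, (∃ a', w a' s = y) → w a s = y := by
        intro s y
        by_cases hy : ∃ a', w a' s = y
        · obtain ⟨a', ha'⟩ := hy
          exact ⟨a', fun _ => ha'⟩
        · exact ⟨a0, fun h => (hy h).elim⟩
      choose r hr using hr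
      have hrw : ∀ a s, w (r s (w a s)) s = w a s := fun a s => hr s (w a s) ⟨a, rfl⟩
      have h4 := hu Ω K hK (fun _ => a0) (fun z s h => r s (w (x z h) s)) (fun _ _ => Set.mem_univ _)
        (fun l => by
          have h5 := hK.comp _ _ _ (fun (y : L → Fin m → Y) (s : Fin m) =>
            if s = l then (fun _ => a0 : L → A) else fun h => r s (y h s)) (h l)
          have h6 : (fun z (s : Fin m) => if s = l then (fun _ => a0 : L → A) else
              fun h => r s (if s = l then c else w (x z h) s)) =
              fun z s => if s = l then (fun _ => a0 : L → A) else fun h => r s (w (x z h) s) := by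
            funext z s
            by_cases hs : s = l
            · rw [if_pos hs, if_pos hs]
            · rw [if_neg hs, if_neg hs]
              simp only [hs, if_false]
          rw [h6] at h5
          exact h5)
        (fun t => k2 (fun a s => r s (w a s)) t)
      have h7 := hK.comp _ _ _ (fun (y : Fin m → L → A) (h : L) (s : Fin m) => w (y s h) s) h4
      have h8 : (fun z (h : L) (s : Fin m) => w (r s (w (x z h) s)) s) = fun z h => w (x z h) := by
        funext z h s
        exact hrw _ _
      rw [h8] at h7
      exact h7
  have h9 := hg0 A K' hS id (fun i => by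
    rw [hK']
    exact k1 i)
  rw [hK'] at h9
  exact h9

end H38U
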